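import Pool.Agent.Helper65.EV.St

/-! Module WM of project EV: elementary properties of the weighted sums. -/

set_option autoImplicit false

open Set
open scoped ENNReal

namespace Pool.Agent.Helper57.EV

open Pool.Agent.Helper65.EV Pool.Agent.Helper84.Eve

private lemma mul' (w : Finset ℕ → ℝ≥0∞) (n m : ℕ) (c : ℝ≥0∞)
    (F : List (Finset ℕ) → ℝ≥0∞) : wsum w n m (fun l => c * F l) = c * wsum w n m F := by
  induction m generalizing F with
  | zero => rfl
  | succ m ih =>
    unfold wsum
    simp_rw [ih, Finset.mul_sum]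
    exact Finset.sum_congr rfl fun κ _ => by ring

private lemma mono' (w : Finset ℕ → ℝ≥0∞) (n m : ℕ) (F G : List (Finset ℕ) → ℝ≥0∞)
    (h : ∀ l, l.length = m → F l ≤ G l) : wsum w n m F ≤ wsum w n m G := by
  induction m generalizing F G with
  | zero => exact h [] rfl
  | succ m ih =>
    unfold wsum
    refine Finset.sum_le_sum fun κ _ => ?_
    gcongr
    exact ih _ _ fun l hl => h (κ :: l) (by simp [hl])

private lemma const_le' (w : Finset ℕ → ℝ≥0∞) (n : ℕ)
    (hw : ∑ κ ∈ (Finset.range n).powerset, w κ ≤ 1) (m : ℕ) (c : ℝ≥0∞) :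
    wsum w n m (fun _ => c) ≤ c := by
  induction m with
  | zero => exact le_rfl
  | succ m ih =>
    unfold wsum
    calc ∑ κ ∈ (Finset.range n).powerset, w κ * wsum w n m (fun _ => c)
        ≤ ∑ κ ∈ (Finset.range n).powerset, w κ * c := by gcongr
      _ = (∑ κ ∈ (Finset.range n).powerset, w κ) * c := (Finset.sum_mul _ _ _).symm
      _ ≤ 1 * c := by gcongr
      _ = c := one_mul c

private lemma take_le' (w : Finset ℕ → ℝ≥0∞) (n : ℕ)
    (hw : ∑ κ ∈ (Finset.range n).powerset, w κ ≤ 1) (k k' : ℕ)
    (F : List (Finset ℕ) → ℝ≥0∞) :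
    wsum w n (k + k') (fun l => F (l.take k)) ≤ wsum w n k F := by
  induction k generalizing F with
  | zero => exact const_le' w n hw (0 + k') (F [])
  | succ k ih =>
    rw [show k + 1 + k' = (k + k') + 1 by ring]
    unfold wsum
    refine Finset.sum_le_sum fun κ _ => ?_
    gcongr
    exact ih fun l => F (κ :: l)

theorem hWM : WM := by
  refine ⟨const_le', mul', mono', take_le', ?_⟩
  intro w n m S c F h
  rw [← mul']
  refine mono' w n m _ _ fun l hl => ?_
  by_cases hS : l ∈ S
  · rw [Set.indicator_of_mem hS]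
    simpa using h l hl hS
  · rw [Set.indicator_of_notMem hS]
    simp

end Pool.Agent.Helper57.EV
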